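import Mathlib

/-!
Group jumps of equivalence relations and Borel reducibility.
-/

namespace Pool.Agent.H38.GJ

/-- The `G`-jump of a relation `E` on `X`, a relation on `X^G`. -/
def Jump (G : Type) [Group G] {X : Type} (E : X → X → Prop) (α β : G → X) : Prop :=
  ∃ g : G, ∀ h : G, E (α (g⁻¹ * h)) (β h)

/-- Borel reducibility. -/
def BorelRed {X Y : Type} [TopologicalSpace X] [TopologicalSpace Y] (E : X → X → Prop)
    (F : Y → Y → Prop) : Prop :=
  ∃ f : X → Y, @Measurable X Y (borel X) (borel Y) f ∧ ∀ x x', E x x' ↔ F (f x) (f x')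

end Pool.Agent.H38.GJ
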