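import Pool.Agent.H38.Jump.Defs
import Pool.Agent.H38.Baire.Lib

namespace Pool.Agent.H38.GJ

open Set Filter Topology Pool.Agent.H38.Baire

variable {G H : Type} [Group G] [Group H]

def act (γ : H → G) (z : H → G → Bool) : H → G → Bool := fun h g => z h ((γ h)⁻¹ * g)

theorem act_cont [TopologicalSpace G] [DiscreteTopology G] :
    Continuous fun p : (H → G) × (H → G → Bool) => act p.1 p.2 := by
  refine continuous_pi fun h => continuous_pi fun g => ?_
  have : Continuous fun q : G × (H → G → Bool) => q.2 h (q.1⁻¹ * g) :=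
    continuous_prod_of_discrete_left.2 fun a => by dsimp only; fun_prop
  exact this.comp (f := fun p : (H → G) × (H → G → Bool) => (p.1 h, p.2)) (by fun_prop)

theorem act_cont' (γ : H → G) : Continuous (act γ) := by
  unfold act; fun_prop

theorem act_inv (γ : H → G) (z : H → G → Bool) : act γ⁻¹ (act γ z) = z := by
  funext h g; simp [act]

theorem act_inv' (γ : H → G) (z : H → G → Bool) : act γ (act γ⁻¹ z) = z := by
  funext h g; simp [act]

def skew [TopologicalSpace G] [DiscreteTopology G] :
    ((H → G) × (H → G → Bool)) ≃ₜ ((H → G) × (H → G → Bool)) where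
  toFun p := (p.1, act p.1 p.2)
  invFun p := (p.1, act p.1⁻¹ p.2)
  left_inv p := by simp [act_inv]
  right_inv p := by simp [act_inv']
  continuous_toFun := continuous_fst.prodMk act_cont
  continuous_invFun := continuous_fst.prodMk (act_cont.comp
    (f := fun p : (H → G) × (H → G → Bool) => (p.1⁻¹, p.2)) (Continuous.prodMk
      (continuous_pi fun h => (continuous_of_discreteTopology (f := fun g : G => g⁻¹)).comp
        (by fun_prop)) continuous_snd))

open Classical in
noncomputable def mix (S : Finset H) (a b : H → G → Bool) : H → G → Bool :=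
  fun h => if h ∈ S then a h else b h

theorem mix_cont {W : Type} [TopologicalSpace W] (S : Finset H) {a b : W → H → G → Bool}
    (ha : Continuous a) (hb : Continuous b) : Continuous fun w => mix S (a w) (b w) := by
  refine continuous_pi fun h => ?_
  unfold mix
  split_ifs <;> fun_prop

noncomputable def swap (S : Finset H) (γ : H → G) :
    ((H → G → Bool) × (H → G → Bool)) ≃ₜ ((H → G → Bool) × (H → G → Bool)) where
  toFun p := (mix S (act γ p.1) p.2, mix S p.2 (act γ p.1))
  invFun p := (act γ⁻¹ (mix S p.1 p.2), mix S p.2 p.1)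
  left_inv p := by
    ext h g <;> by_cases hh : h ∈ S <;> simp [act, mix, hh]
  right_inv p := by
    ext h g <;> by_cases hh : h ∈ S <;> simp [act, mix, hh]
  continuous_toFun := (mix_cont S ((act_cont' γ).comp continuous_fst) continuous_snd).prodMk
    (mix_cont S continuous_snd ((act_cont' γ).comp continuous_fst))
  continuous_invFun := ((act_cont' _).comp (mix_cont S continuous_fst continuous_snd)).prodMk
    (mix_cont S continuous_snd continuous_fst)

theorem noneq_residual [Countable G] [Countable H] [Infinite G] [Infinite H] (S : Finset H)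
    (γ : H → G) : ∀ᶠ p in residual ((H → G → Bool) × (H → G → Bool)),
      ¬ Jump H (Jump G Eq) p.1 (mix S (act γ p.1) p.2) := by
  classical
  obtain ⟨h, hh⟩ := Infinite.exists_notMem_finset S
  have key : ∀ (g : H) (s : G), ∀ᶠ p in residual ((H → G → Bool) × (H → G → Bool)),
      ∃ t, p.1 (g⁻¹ * h) (s⁻¹ * t) ≠ p.2 h t := by
    intro g s
    refine residual_of_dense_open ?_ fun p => mem_closure_iff_nhds.2 fun U hU => ?_
    · rw [ofPred_exists]
      exact isOpen_iUnion fun t => isOpen_ne_fun (by fun_prop) (by fun_prop)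
    · obtain ⟨I, J, hIJ⟩ := nhds_supp2
        ((Continuous.prodMk_right p.1).continuousAt.preimage_mem_nhds hU)
      obtain ⟨t, ht⟩ := Infinite.exists_notMem_finset J
      refine ⟨(p.1, fun a b => if b = t then !p.1 (g⁻¹ * h) (s⁻¹ * t) else p.2 a b),
        hIJ _ fun i _ j hj => if_neg (by rintro rfl; exact ht hj), t, by simp⟩
  filter_upwards [eventually_countable_forall.2 fun g => eventually_countable_forall.2 (key g)]
    with p hp
  rintro ⟨g, hg⟩
  obtain ⟨s, hs⟩ := hg h
  obtain ⟨t, ht⟩ := hp g s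
  exact ht (by simpa [mix, hh] using hs t)

theorem core [Countable G] [Countable H] [Infinite G] [Infinite H] {X K : Type}
    [TopologicalSpace X] [T2Space X] [SecondCountableTopology X] [Group K] [Countable K] :
    ¬ BorelRed (Jump H (Jump G (Eq : Bool → Bool → Prop))) (Jump K (Eq : X → X → Prop)) := by
  classical
  rintro ⟨f, hf, hred⟩
  obtain ⟨C, hC, hfC⟩ := exists_continuousOn hf
  let : TopologicalSpace G := ⊥
  have : DiscreteTopology G := ⟨rfl⟩
  let sh : K → (K → X) → K → X := fun k a κ => a (k⁻¹ * κ)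
  have hsh : ∀ k, Continuous (sh k) := fun k => by simp only [sh]; fun_prop
  let C' : Set ((H → G) × (H → G → Bool)) := {p | p.2 ∈ C ∧ act p.1 p.2 ∈ C}
  have hC' : C' ∈ residual _ :=
    inter_mem (tendsto_residual_of_isOpenMap continuous_snd isOpenMap_snd hC)
      (tendsto_residual_of_isOpenMap (continuous_snd.comp skew.continuous)
        (isOpenMap_snd.comp skew.isOpenMap) hC)
  let A : K → Set ((H → G) × (H → G → Bool)) :=
    fun k => {p | p ∈ C' ∧ sh k (f p.2) = f (act p.1 p.2)}
  obtain ⟨s, hs, hs1, hs2⟩ := mem_residual.1 hC'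
  have hd := hs1.dense_iUnion_interior_of_closed hs2 (f := fun k => closure (A k))
    (fun _ => isClosed_closure) fun p hp => by
      obtain ⟨k, hk⟩ := (hred p.2 (act p.1 p.2)).1 ⟨1, fun h => ⟨p.1 h, fun g => by simp [act]⟩⟩
      exact mem_iUnion.2 ⟨k, subset_closure ⟨hs hp, funext hk⟩⟩
  obtain ⟨⟨γ0, z0⟩, hp0⟩ := hd.nonempty
  obtain ⟨k, hk⟩ := mem_iUnion.1 hp0
  have hA : ∀ p ∈ closure (A k) ∩ C', sh k (f p.2) = f (act p.1 p.2) :=
    Set.EqOn.of_subset_closure (s := A k) (f := fun p => sh k (f p.2))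
      (g := fun p => f (act p.1 p.2)) (fun p hp => hp.2)
      ((hsh k).comp_continuousOn (hfC.comp continuous_snd.continuousOn fun p hp => hp.2.1))
      (hfC.comp act_cont.continuousOn fun p hp => hp.2.2)
      (fun p hp => ⟨subset_closure hp, hp.1⟩) inter_subset_left
  obtain ⟨U1, hU1, U2, hU2, hU⟩ := mem_nhds_prod_iff.1 (isOpen_interior.mem_nhds hk)
  obtain ⟨S1, hS1⟩ := nhds_supp hU1
  obtain ⟨S2, T, hS2⟩ := nhds_supp2 hU2
  have hres : ∀ᶠ p in residual ((H → G → Bool) × (H → G → Bool)),
      p.1 ∈ C ∧ mix S1 (act γ0 p.1) p.2 ∈ C ∧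
        ¬ Jump H (Jump G Eq) p.1 (mix S1 (act γ0 p.1) p.2) :=
    (Filter.Eventually.and (tendsto_residual_of_isOpenMap continuous_fst isOpenMap_fst hC)
      (Filter.Eventually.and
        (tendsto_residual_of_isOpenMap (continuous_fst.comp (swap S1 γ0).continuous)
        (isOpenMap_fst.comp (swap S1 γ0).isOpenMap) hC) (noneq_residual S1 γ0)))
  obtain ⟨⟨y, w⟩, hy, hyC, hy'C, hne⟩ := (dense_of_mem_residual hres).inter_open_nonempty _
    ((isOpen_cyl2 z0 S2 T).preimage continuous_fst) ⟨(z0, z0), fun _ _ _ _ => rfl⟩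
  simp only at hyC hy'C hne
  set y' := mix S1 (act γ0 y) w with hy'
  have hcont : ContinuousOn (fun q : (H → G → Bool) × (H → G → Bool) => (sh k (f q.1), f q.2))
      (C ×ˢ C) :=
    ((hsh k).comp_continuousOn (hfC.comp continuous_fst.continuousOn fun p hp => hp.1)).prodMk
      (hfC.comp continuous_snd.continuousOn fun p hp => hp.2)
  obtain ⟨W, hW, hW'⟩ := continuousOn_iff'.1 hcont _ isClosed_diagonal.isOpen_compl
  have hyW : (y, y') ∈ W := by
    have : (y, y') ∈ W ∩ C ×ˢ C := by
      rw [← hW']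
      exact ⟨fun e => hne ((hred _ _).2 ⟨k, congrFun e⟩), hyC, hy'C⟩
    exact this.1
  obtain ⟨W1, hW1, W2, hW2, hW12⟩ := mem_nhds_prod_iff.1 (hW.mem_nhds hyW)
  obtain ⟨S3, T3, h3⟩ := nhds_supp2 hW1
  obtain ⟨S4, T4, h4⟩ := nhds_supp2 hW2
  obtain ⟨g, hg⟩ := exists_shift (T ∪ T3 ∪ T4)
  let γ : H → G := fun h => if h ∈ S1 then γ0 h else g
  let z : H → G → Bool := fun h t =>
    if h ∈ S1 ∨ t ∈ T ∪ T3 ∪ T4 then y h t else y' h (g * t)
  have hO : IsOpen (interior (closure (A k)) ∩ (fun p => (p.2, act p.1 p.2)) ⁻¹' W) :=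
    isOpen_interior.inter (hW.preimage (continuous_snd.prodMk act_cont))
  obtain ⟨p, ⟨hp1, hp2⟩, hp3⟩ := (dense_of_mem_residual hC').inter_open_nonempty _ hO
    ⟨(γ, z), hU ⟨hS1 _ fun h hh => if_pos hh, hS2 _ fun h hh t ht => by
        rw [← hy h hh t ht]; exact if_pos (Or.inr (by simp [ht]))⟩,
      hW12 ⟨h3 _ fun h _ t ht => if_pos (Or.inr (by simp [ht])), h4 _ fun h _ t ht => by
        by_cases hh : h ∈ S1
        · simp [act, z, γ, hh, hy', mix]
        · have := hg t (by simp [ht])
          simp only [act, z, γ, hh, if_false, false_or, this]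
          simp⟩⟩
  have : (p.2, act p.1 p.2) ∈ W ∩ C ×ˢ C := ⟨hp2, hp3⟩
  rw [← hW'] at this
  exact this.1 (hA p ⟨interior_subset hp1, hp3⟩)

theorem main {X K : Type} [TopologicalSpace X] [PolishSpace X] [Nontrivial X] [Group K]
    [Countable G] [Countable H] [Countable K] [Infinite G] [Infinite H] :
    ¬ BorelRed (Jump H (Jump G (Eq : X → X → Prop))) (Jump K (Eq : X → X → Prop)) := by
  rintro ⟨f, hf, hred⟩
  obtain ⟨a, b, hab⟩ := exists_pair_ne X
  let e : Bool → X := fun c => cond c a b
  have he : Function.Injective e := by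
    rintro (_ | _) (_ | _) h
    · rfl
    · exact (hab h.symm).elim
    · exact (hab h).elim
    · rfl
  have hc : Continuous fun (z : H → G → Bool) h g => e (z h g) :=
    continuous_pi fun h => continuous_pi fun g =>
      (continuous_of_discreteTopology (f := e)).comp (by fun_prop)
  refine core (G := G) (H := H) (X := X) (K := K)
    ⟨fun z => f fun h g => e (z h g), hf.comp hc.borel_measurable, fun z z' => ?_⟩
  rw [← hred]
  simp only [Jump, he.eq_iff]

end Pool.Agent.H38.GJ
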